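import Pool.Agent.Helper20.FR.St2

/-!
# Project R20, module RB: the completion for a seminorm is radical

The first lemmas are copied from `Pool/Agent/Helper71/R20/M_RA.lean`.
-/

set_option autoImplicit false

open Topology Filter

namespace Pool.Agent.Helper72.R20

open Pool.Agent.Helper20.FA
open Pool.Agent.Helper20.FR

section
variable {A : Type} [NonUnitalCommRing A] [Module ℂ A] [IsScalarTower ℂ A A]
  [SMulCommClass ℂ A A]

private theorem pow_form (a : A) (n : ℕ) (z : A) :
    ((LinearMap.mulLeft ℂ a) ^ (n + 1)) z = ((fun z => a * z)^[n] a) * z := by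
  induction n with
  | zero => simp
  | succ n ih =>
    rw [pow_succ', Module.End.mul_apply, ih, LinearMap.mulLeft_apply, Function.iterate_succ_apply',
      mul_assoc]

private theorem pow_comm (a d : A) (i : ℕ) (z : A) :
    ((LinearMap.mulLeft ℂ a) ^ i) (d * z) = d * ((LinearMap.mulLeft ℂ a) ^ i) z := by
  induction i with
  | zero => simp
  | succ i ih =>
    rw [pow_succ', Module.End.mul_apply, ih, Module.End.mul_apply, LinearMap.mulLeft_apply,
      LinearMap.mulLeft_apply, mul_left_comm]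

private theorem main_bd (r : Seminorm ℂ A) (hm : ∀ a b, r (a * b) ≤ r a * r b) (a d : A) (K : ℝ)
    (hK0 : 0 ≤ K)
    (hK : ∀ (i : ℕ) (z : A), r (((LinearMap.mulLeft ℂ a) ^ i) z) ≤ K * (1 / 8) ^ i * r z)
    (hd : r d ≤ 1 / 8) (n : ℕ) : ∀ (i : ℕ) (z : A),
    r (((LinearMap.mulLeft ℂ (a + d)) ^ n) (((LinearMap.mulLeft ℂ a) ^ i) z)) ≤
      K * (1 / 4) ^ n * (1 / 8) ^ i * r z := by
  induction n with
  | zero =>
    intro i z
    simpa using hK i z
  | succ n ih =>
    intro i z
    have e1 : ((LinearMap.mulLeft ℂ (a + d)) ^ (n + 1)) (((LinearMap.mulLeft ℂ a) ^ i) z) =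
        ((LinearMap.mulLeft ℂ (a + d)) ^ n) (((LinearMap.mulLeft ℂ a) ^ (i + 1)) z) +
        ((LinearMap.mulLeft ℂ (a + d)) ^ n) (((LinearMap.mulLeft ℂ a) ^ i) (d * z)) := by
      rw [pow_succ, Module.End.mul_apply, LinearMap.mulLeft_apply, add_mul, map_add,
        pow_comm a d i z, pow_succ' (LinearMap.mulLeft ℂ a) i, Module.End.mul_apply,
        LinearMap.mulLeft_apply]
    rw [e1]
    have h1 := ih (i + 1) z
    have h2 := ih i (d * z)
    have h3 : r (d * z) ≤ 1 / 8 * r z :=
      (hm d z).trans (mul_le_mul_of_nonneg_right hd (apply_nonneg r z))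
    have h4 : K * (1 / 4) ^ n * (1 / 8) ^ i * r (d * z) ≤
        K * (1 / 4) ^ n * (1 / 8) ^ i * (1 / 8 * r z) :=
      mul_le_mul_of_nonneg_left h3 (by positivity)
    calc _ ≤ _ := map_add_le_add r _ _
      _ ≤ K * (1 / 4) ^ n * (1 / 8) ^ (i + 1) * r z +
          K * (1 / 4) ^ n * (1 / 8) ^ i * (1 / 8 * r z) := by linarith
      _ = K * (1 / 4) ^ (n + 1) * (1 / 8) ^ i * r z := by ring

/-- the partial sum of the geometric series -/
private noncomputable def bs (y : A) (m : ℕ) : A :=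
  ∑ j ∈ Finset.range m, ((LinearMap.mulLeft ℂ y) ^ j) y

private theorem bs_id (y : A) (m : ℕ) :
    bs y m - y - bs y m * y = -((LinearMap.mulLeft ℂ y) ^ m) y := by
  induction m with
  | zero => simp [bs]
  | succ m ih =>
    have e : bs y (m + 1) = bs y m + ((LinearMap.mulLeft ℂ y) ^ m) y := by
      unfold bs
      rw [Finset.sum_range_succ]
    have e2 : ((LinearMap.mulLeft ℂ y) ^ (m + 1)) y = ((LinearMap.mulLeft ℂ y) ^ m) y * y := by
      rw [pow_succ', Module.End.mul_apply, LinearMap.mulLeft_apply, mul_comm]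
    rw [e, e2, add_mul]
    calc bs y m + ((LinearMap.mulLeft ℂ y) ^ m) y - y - (bs y m * y + ((LinearMap.mulLeft ℂ y) ^ m) y * y)
        = (bs y m - y - bs y m * y) + ((LinearMap.mulLeft ℂ y) ^ m) y -
          ((LinearMap.mulLeft ℂ y) ^ m) y * y := by abel
      _ = _ := by
        rw [ih]
        abel

end

/-- Module RB. -/
theorem hRB : StRB := by
  intro A _ _ _ _ r hm hrad α hcau
  obtain ⟨N, hN⟩ := hcau (1 / 8) (by norm_num)
  obtain ⟨K, hK⟩ := hrad (-α N) (1 / 8) (by norm_num)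
  obtain ⟨K1, hK1⟩ : ∃ K1, K1 = max 1 (8 * K) := ⟨_, rfl⟩
  have hK1a : 1 ≤ K1 := by rw [hK1]; exact le_max_left _ _
  have hK1b : 8 * K ≤ K1 := by rw [hK1]; exact le_max_right _ _
  have hK10 : 0 ≤ K1 := by linarith
  have hb : ∀ (i : ℕ) (z : A), r (((LinearMap.mulLeft ℂ (-α N)) ^ i) z) ≤
      K1 * (1 / 8) ^ i * r z := by
    intro i z
    have hz := apply_nonneg r z
    cases i with
    | zero =>
      rw [pow_zero, pow_zero, mul_one, Module.End.one_apply]
      nlinarith
    | succ i =>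
      rw [pow_form]
      calc r (((fun z => -α N * z)^[i] (-α N)) * z) ≤ r ((fun z => -α N * z)^[i] (-α N)) * r z :=
            hm _ _
        _ ≤ (K * (1 / 8) ^ i) * r z := mul_le_mul_of_nonneg_right (hK i) hz
        _ = (8 * K) * (1 / 8) ^ (i + 1) * r z := by ring
        _ ≤ K1 * (1 / 8) ^ (i + 1) * r z := by
            apply mul_le_mul_of_nonneg_right _ hz
            exact mul_le_mul_of_nonneg_right hK1b (by positivity)
  have hT : ∀ k, N ≤ k → ∀ (n : ℕ) (z : A), r (((LinearMap.mulLeft ℂ (-α k)) ^ n) z) ≤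
      K1 * (1 / 4) ^ n * r z := by
    intro k hk n z
    have hd : r (-(α k - α N)) ≤ 1 / 8 := by
      rw [map_neg_eq_map]
      exact hN k hk
    have h1 := main_bd r hm (-α N) (-(α k - α N)) K1 hK10 hb hd n 0 z
    have e : -α N + -(α k - α N) = -α k := by abel
    rw [e, pow_zero, pow_zero, mul_one, Module.End.one_apply] at h1
    exact h1
  obtain ⟨R, hR⟩ : ∃ R, R = r (α N) + 1 / 8 := ⟨_, rfl⟩
  have hR0 : 0 < R := by
    rw [hR]
    have := apply_nonneg r (α N)
    linarith
  have hRk : ∀ k, N ≤ k → r (-α k) ≤ R := by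
    intro k hk
    rw [map_neg_eq_map]
    calc r (α k) = r (α N + (α k - α N)) := by rw [add_sub_cancel]
      _ ≤ r (α N) + r (α k - α N) := map_add_le_add r _ _
      _ ≤ R := by
        rw [hR]
        linarith [hN k hk]
  obtain ⟨m, hm1⟩ := exists_pow_lt_of_lt_one (show (0 : ℝ) < 1 / (4 * (K1 * R)) by positivity)
    (show (1 / 4 : ℝ) < 1 by norm_num)
  have hm2 : K1 * (1 / 4) ^ m * R ≤ 1 / 4 := by
    rw [lt_div_iff₀ (by positivity)] at hm1
    nlinarith
  obtain ⟨K2, hK2⟩ : ∃ K2 : ℝ, K2 = m * (K1 * R) := ⟨_, rfl⟩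
  have hK20 : 0 ≤ K2 := by
    rw [hK2]
    positivity
  have hbs : ∀ k, N ≤ k → r (bs (-α k) m) ≤ K2 := by
    intro k hk
    unfold bs
    calc r (∑ j ∈ Finset.range m, ((LinearMap.mulLeft ℂ (-α k)) ^ j) (-α k))
        ≤ ∑ j ∈ Finset.range m, r (((LinearMap.mulLeft ℂ (-α k)) ^ j) (-α k)) :=
          Finset.le_sum_of_subadditive r (map_zero r).le (fun x y => map_add_le_add r x y) _ _
      _ ≤ ∑ _j ∈ Finset.range m, K1 * R := by
          refine Finset.sum_le_sum fun j _ => ?_
          refine (hT k hk j _).trans ?_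
          have h1 : K1 * (1 / 4) ^ j ≤ K1 := by
            calc K1 * (1 / 4) ^ j ≤ K1 * 1 :=
                  mul_le_mul_of_nonneg_left (pow_le_one₀ (by norm_num) (by norm_num)) hK10
              _ = K1 := mul_one _
          exact mul_le_mul h1 (hRk k hk) (apply_nonneg r _) hK10
      _ = K2 := by
          rw [Finset.sum_const, Finset.card_range, nsmul_eq_mul, hK2]
  obtain ⟨N', hN'⟩ := hcau (1 / (8 * (1 + K2))) (by positivity)
  obtain ⟨M, hM⟩ : ∃ M, M = max N N' := ⟨_, rfl⟩
  have hMN : N ≤ M := by rw [hM]; exact le_max_left _ _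
  have hMN' : N' ≤ M := by rw [hM]; exact le_max_right _ _
  refine ⟨bs (-α M) m, M, fun k hk => ?_⟩
  have hd : r (α k - α M) ≤ 1 / (4 * (1 + K2)) := by
    calc r (α k - α M) = r ((α k - α N') - (α M - α N')) := by
          congr 1
          abel
      _ ≤ r (α k - α N') + r (α M - α N') := map_sub_le_add r _ _
      _ ≤ 1 / (8 * (1 + K2)) + 1 / (8 * (1 + K2)) :=
          add_le_add (hN' k (hMN'.trans hk)) (hN' M hMN')
      _ = 1 / (4 * (1 + K2)) := by
          field_simp
          norm_num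
  have e : bs (-α M) m + α k + bs (-α M) m * α k =
      (bs (-α M) m - (-α M) - bs (-α M) m * (-α M)) + (α k - α M) + bs (-α M) m * (α k - α M) := by
    rw [mul_neg, mul_sub]
    abel
  have h1 : r (bs (-α M) m - (-α M) - bs (-α M) m * (-α M)) ≤ 1 / 4 := by
    rw [bs_id, map_neg_eq_map]
    refine (hT M hMN m _).trans (le_trans ?_ hm2)
    exact mul_le_mul_of_nonneg_left (hRk M hMN) (by positivity)
  have h2 : r (bs (-α M) m * (α k - α M)) ≤ K2 * r (α k - α M) :=
    (hm _ _).trans (mul_le_mul_of_nonneg_right (hbs M hMN) (apply_nonneg r _))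
  have h3 : (1 + K2) * r (α k - α M) ≤ 1 / 4 := by
    calc (1 + K2) * r (α k - α M) ≤ (1 + K2) * (1 / (4 * (1 + K2))) :=
          mul_le_mul_of_nonneg_left hd (by positivity)
      _ = 1 / 4 := by
          field_simp
  rw [e]
  have h4 := map_add_le_add r ((bs (-α M) m - (-α M) - bs (-α M) m * (-α M)) + (α k - α M))
    (bs (-α M) m * (α k - α M))
  have h5 := map_add_le_add r (bs (-α M) m - (-α M) - bs (-α M) m * (-α M)) (α k - α M)
  linarith

end Pool.Agent.Helper72.R20
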